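import Mathlib

/-!
# Lie algebras of operators: the space of operators which are locally in it

For a Lie algebra `L` of operators on a finite-dimensional real normed space, the space of all
operators `S` with `S x ∈ L x` for all `x` is closed under commutators.
-/

set_option autoImplicit false

namespace Pool.Agent.KS6_47.LDB

open NormedSpace

universe u

section Abstract

variable {𝔸 : Type u} [NormedRing 𝔸] [NormedAlgebra ℝ 𝔸]

/-- Bracket with `D` as a continuous operator: `X ↦ X D - D X`. -/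
noncomputable def br (D : 𝔸) : 𝔸 →L[ℝ] 𝔸 :=
  (ContinuousLinearMap.mul ℝ 𝔸).flip D - ContinuousLinearMap.mul ℝ 𝔸 D

theorem br_apply (D X : 𝔸) : br D X = X * D - D * X := by
  simp [br]

variable [CompleteSpace 𝔸]

theorem hasDerivAt_k (D X : 𝔸) (s : ℝ) :
    HasDerivAt (fun s : ℝ => exp (s • br D) X) (br D (exp (s • br D) X)) s := by
  have h := hasDerivAt_exp_smul_const' (𝕂 := ℝ) (br D) s
  have h2 := h.clm_apply (hasDerivAt_const s X)
  refine h2.congr_deriv ?_
  rw [map_zero, add_zero]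
  rfl

theorem hasDerivAt_e (D : 𝔸) (s : ℝ) :
    HasDerivAt (fun s : ℝ => exp (s • D)) (D * exp (s • D)) s :=
  hasDerivAt_exp_smul_const' D s

theorem hasDerivAt_e' (D : 𝔸) (s : ℝ) :
    HasDerivAt (fun s : ℝ => exp (-(s • D))) (-(exp (-(s • D)) * D)) s := by
  have h := hasDerivAt_exp_smul_const (𝕂 := ℝ) (-D) s
  simp only [smul_neg, mul_neg] at h
  exact h

theorem exp_neg_mul_exp (D : 𝔸) : exp (-D) * exp D = 1 := by
  let _ : NormedAlgebra ℚ 𝔸 := NormedAlgebra.restrictScalars ℚ ℝ 𝔸
  rw [← exp_add_of_commute (Commute.refl D).neg_left, neg_add_cancel, exp_zero]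

theorem exp_mul_exp_neg (D : 𝔸) : exp D * exp (-D) = 1 := by
  let _ : NormedAlgebra ℚ 𝔸 := NormedAlgebra.restrictScalars ℚ ℝ 𝔸
  rw [← exp_add_of_commute (Commute.refl D).neg_right, add_neg_cancel, exp_zero]

theorem conj_eq (D X : 𝔸) (t : ℝ) :
    exp (-(t • D)) * X * exp (t • D) = exp (t • br D) X := by
  have hF : ∀ s : ℝ, HasDerivAt (fun s : ℝ => exp (s • D) * exp (s • br D) X * exp (-(s • D))) 0
      s := by
    intro s
    have h := ((hasDerivAt_e D s).mul (hasDerivAt_k D X s)).mul (hasDerivAt_e' D s)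
    refine HasDerivAt.congr_deriv (f := fun s : ℝ =>
      exp (s • D) * exp (s • br D) X * exp (-(s • D))) h ?_
    have hc : D * exp (s • D) = exp (s • D) * D :=
      ((Commute.refl D).smul_right s).exp_right.eq
    show (D * exp (s • D) * exp (s • br D) X + exp (s • D) * br D (exp (s • br D) X)) *
      exp (-(s • D)) + exp (s • D) * exp (s • br D) X * -(exp (-(s • D)) * D) = 0
    have hc' : exp (-(s • D)) * D = D * exp (-(s • D)) :=
      (((Commute.refl D).smul_right s).neg_right.exp_right.eq).symm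
    rw [br_apply, hc, hc']
    noncomm_ring
  have hconst := is_const_of_deriv_eq_zero (f := fun s : ℝ =>
    exp (s • D) * exp (s • br D) X * exp (-(s • D))) (fun s => (hF s).differentiableAt)
    (fun s => (hF s).deriv) t 0
  have h0 : ((0 : ℝ) • br D : 𝔸 →L[ℝ] 𝔸) = 0 := zero_smul ℝ (br D)
  simp only [zero_smul, exp_zero, neg_zero, one_mul, mul_one] at hconst
  have hconst : exp (t • D) * exp (t • br D) X * exp (-(t • D)) = X := by
    refine hconst.trans ?_
    rw [h0, exp_zero]
    rfl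
  have hi : exp (-(t • D)) * exp (t • D) = 1 := exp_neg_mul_exp _
  calc exp (-(t • D)) * X * exp (t • D)
      = exp (-(t • D)) * (exp (t • D) * exp (t • br D) X * exp (-(t • D))) * exp (t • D) := by
        rw [hconst]
    _ = (exp (-(t • D)) * exp (t • D)) * exp (t • br D) X * (exp (-(t • D)) * exp (t • D)) := by
        noncomm_ring
    _ = exp (t • br D) X := by rw [hi, one_mul, mul_one]

/-- The operators which map the subspace `L` to itself. -/
def stab (L : Submodule ℝ 𝔸) : Subalgebra ℝ (𝔸 →L[ℝ] 𝔸) where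
  carrier := {S | ∀ X ∈ L, S X ∈ L}
  mul_mem' := fun {S T} hS hT X hX => hS _ (hT X hX)
  one_mem' := fun X hX => hX
  add_mem' := fun {S T} hS hT X hX => L.add_mem (hS X hX) (hT X hX)
  zero_mem' := fun X _ => L.zero_mem
  algebraMap_mem' := fun r X hX => by
    rw [Algebra.algebraMap_eq_smul_one]
    exact L.smul_mem r hX

omit [CompleteSpace 𝔸] in
theorem isClosed_stab {L : Submodule ℝ 𝔸} (hL : IsClosed (L : Set 𝔸)) :
    IsClosed (stab L : Set (𝔸 →L[ℝ] 𝔸)) := by
  have : (stab L : Set (𝔸 →L[ℝ] 𝔸)) =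
      ⋂ X ∈ L, (fun S : 𝔸 →L[ℝ] 𝔸 => S X) ⁻¹' (L : Set 𝔸) := by
    ext S
    simp only [Set.mem_iInter, Set.mem_preimage, SetLike.mem_coe]
    exact Iff.rfl
  rw [this]
  refine isClosed_biInter fun X _ => ?_
  exact hL.preimage (ContinuousLinearMap.apply ℝ _ X).continuous

/-- Conjugation by `exp (t D)` preserves a closed Lie algebra containing `D`. -/
theorem conj_mem {L : Submodule ℝ 𝔸} (hcl : IsClosed (L : Set 𝔸))
    (hL : ∀ D ∈ L, ∀ X ∈ L, X * D - D * X ∈ L)
    {D X : 𝔸} (hD : D ∈ L) (hX : X ∈ L) (t : ℝ) :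
    exp (-(t • D)) * X * exp (t • D) ∈ L := by
  rw [conj_eq]
  have h1 : t • br D ∈ stab L := by
    refine (stab L).smul_mem ?_ t
    intro Y hY
    rw [br_apply]
    exact hL D hD Y hY
  have h2 : exp (t • br D) ∈ stab L := by
    rw [exp_eq_tsum ℝ]
    exact tsum_mem (isClosed_stab hcl) fun i => (stab L).smul_mem (pow_mem h1 i) _
  exact h2 X hX

theorem hasDerivAt_conj_zero (D X : 𝔸) :
    HasDerivAt (fun t : ℝ => exp (-(t • D)) * X * exp (t • D)) (X * D - D * X) 0 := by
  have h := hasDerivAt_k D X 0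
  simp only [← conj_eq] at h
  simpa [br_apply] using h

end Abstract

section Operators

variable {E : Type u} [NormedAddCommGroup E] [NormedSpace ℝ E]

/-- The operators which are locally in `L`. -/
def IsLocal (L : Submodule ℝ (E →L[ℝ] E)) (S : E →L[ℝ] E) : Prop := ∀ x, ∃ D ∈ L, S x = D x

/-- The value of `L` at the vector `x`. -/
noncomputable def val (L : Submodule ℝ (E →L[ℝ] E)) (x : E) : Submodule ℝ E :=
  L.map (ContinuousLinearMap.apply ℝ E x).toLinearMap

theorem mem_val {L : Submodule ℝ (E →L[ℝ] E)} {x y : E} :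
    y ∈ val L x ↔ ∃ D ∈ L, D x = y := by
  simp [val, Submodule.mem_map]

variable [FiniteDimensional ℝ E]

/-- The commutator of a local operator with an element of `L` is local. -/
theorem bracket_mem_val {L : Submodule ℝ (E →L[ℝ] E)}
    (hL : ∀ D ∈ L, ∀ X ∈ L, X * D - D * X ∈ L) {S D : E →L[ℝ] E} (hS : IsLocal L S) (hD : D ∈ L)
    (x : E) : (S * D - D * S) x ∈ val L x := by
  have : CompleteSpace E := FiniteDimensional.complete ℝ E
  have hclL : IsClosed (L : Set (E →L[ℝ] E)) := Submodule.closed_of_finiteDimensional _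
  have h1 : ∀ t : ℝ, (exp (-(t • D)) * S * exp (t • D)) x ∈ val L x := by
    intro t
    obtain ⟨X, hX, e⟩ := hS (exp (t • D) x)
    refine mem_val.2 ⟨exp (-(t • D)) * X * exp (t • D), conj_mem hclL hL hD hX t, ?_⟩
    show exp (-(t • D)) (X (exp (t • D) x)) = exp (-(t • D)) (S (exp (t • D) x))
    rw [e]
  have h2 : HasDerivAt (fun t : ℝ => (exp (-(t • D)) * S * exp (t • D)) x)
      ((S * D - D * S) x) 0 := by
    have h := (hasDerivAt_conj_zero D S).clm_apply (hasDerivAt_const (0 : ℝ) x)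
    refine h.congr_deriv ?_
    rw [map_zero, add_zero]
  have hcl : IsClosed (val L x : Set E) := Submodule.closed_of_finiteDimensional _
  have h3 := h2.tendsto_slope_zero
  simp only [zero_add] at h3
  refine hcl.mem_of_tendsto h3 ?_
  filter_upwards with t
  exact (val L x).smul_mem _ ((val L x).sub_mem (h1 t) (h1 0))

/-- **The space of the operators which are locally in `L` is closed under commutators.** -/
theorem isLocal_bracket {L : Submodule ℝ (E →L[ℝ] E)}
    (hL : ∀ D ∈ L, ∀ X ∈ L, X * D - D * X ∈ L) {S T : E →L[ℝ] E} (hS : IsLocal L S)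
    (hT : IsLocal L T) : IsLocal L (S * T - T * S) := by
  intro x
  obtain ⟨D, hD, eD⟩ := hS x
  obtain ⟨X, hX, eX⟩ := hT x
  obtain ⟨Y, hY, eY⟩ := mem_val.1 (bracket_mem_val hL hS hX x)
  obtain ⟨Z, hZ, eZ⟩ := mem_val.1 (bracket_mem_val hL hT hD x)
  refine ⟨Y - Z + (X * D - D * X), L.add_mem (L.sub_mem hY hZ) (hL D hD X hX), ?_⟩
  have e1 : Y x = S (X x) - X (S x) := eY
  have e2 : Z x = T (D x) - D (T x) := eZ
  show S (T x) - T (S x) = Y x - Z x + (X (D x) - D (X x))
  rw [e1, e2, eX, eD]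
  abel

end Operators

end Pool.Agent.KS6_47.LDB
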